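import Pool.Agent.W516.MTH.Stm

/-!
# Project MTH, part ALG: subalgebras of matrices are closed under inverses
-/

set_option autoImplicit false

namespace Pool.Agent.W715.MTH

theorem T_ALG : Pool.Agent.W516.MTH.StAlg := by
  intro m _ _ L h1 hmul u hu
  let f : L →ₗ[ℂ] L :=
    (LinearMap.mulLeft ℂ (u : Matrix m m ℂ)).restrict (fun A hA => hmul _ hu A hA)
  have hf : ∀ x : L, ((f x : L) : Matrix m m ℂ) = (u : Matrix m m ℂ) * (x : Matrix m m ℂ) :=
    fun x => rfl
  have hinj : Function.Injective f := by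
    intro x y hxy
    apply Subtype.ext
    have h2 := congrArg (fun z : L => ((u⁻¹ : (Matrix m m ℂ)ˣ) : Matrix m m ℂ) * (z : Matrix m m ℂ)) hxy
    simp only [hf] at h2
    rwa [← mul_assoc, ← mul_assoc, Units.inv_mul, one_mul, one_mul] at h2
  obtain ⟨v, hv⟩ := LinearMap.injective_iff_surjective.mp hinj ⟨1, h1⟩
  have h3 : (u : Matrix m m ℂ) * (v : Matrix m m ℂ) = 1 := by
    rw [← hf, hv]
  have h4 : ((u⁻¹ : (Matrix m m ℂ)ˣ) : Matrix m m ℂ) = v := by
    have h5 := congrArg (fun z => ((u⁻¹ : (Matrix m m ℂ)ˣ) : Matrix m m ℂ) * z) h3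
    simp only [mul_one] at h5
    rw [← mul_assoc, Units.inv_mul, one_mul] at h5
    exact h5.symm
  rw [h4]
  exact v.2

end Pool.Agent.W715.MTH
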